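import Mathlib

/-!
# The circle `ℝ / 2ℤ` as a smooth manifold modelled on the half line

We put on `AddCircle (2 : ℝ)` a smooth structure with charts valued in the interior of the
Euclidean half space of dimension one, in which the covering map `ℝ → ℝ / 2ℤ` and its local
sections are smooth.
-/

open Set Filter Topology Manifold

namespace Q25.Circ

/-- The circle `ℝ / 2ℤ`. -/
abbrev T : Type := AddCircle (2 : ℝ)

instance fact2 : Fact ((0 : ℝ) < 2) := ⟨by norm_num⟩

/-- The covering map. -/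
def q (t : ℝ) : T := (t : T)

lemma q_eq_iff {s t : ℝ} : q s = q t ↔ ∃ n : ℤ, t = s + 2 * n := by
  rw [q, q, eq_comm, ← sub_eq_zero, ← AddCircle.coe_sub, AddCircle.coe_eq_zero_iff]
  constructor
  · rintro ⟨n, hn⟩
    exact ⟨n, by rw [zsmul_eq_mul] at hn; linarith⟩
  · rintro ⟨n, hn⟩
    exact ⟨n, by rw [zsmul_eq_mul, hn]; ring⟩

lemma continuous_q : Continuous q := AddCircle.continuous_mk' 2

lemma q_add (s t : ℝ) : q (s + t) = q s + q t := rfl
lemma q_neg (s : ℝ) : q (-s) = -q s := rfl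
lemma q_sub (s t : ℝ) : q (s - t) = q s - q t := rfl

/-- The local section with values in `[a, a + 2)`. -/
noncomputable def sec (a : ℝ) (z : T) : ℝ := AddCircle.equivIco 2 a z

lemma q_sec (a : ℝ) (z : T) : q (sec a z) = z := AddCircle.coe_equivIco

lemma sec_mem (a : ℝ) (z : T) : sec a z ∈ Ico a (a + 2) := (AddCircle.equivIco 2 a z).2

lemma sec_q {a t : ℝ} (h : t ∈ Ico a (a + 2)) : sec a (q t) = t :=
  AddCircle.equivIco_coe_of_mem h

lemma continuousAt_sec {a : ℝ} {z : T} (h : z ≠ q a) : ContinuousAt (sec a) z :=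
  continuousAt_subtype_val.comp (AddCircle.continuousAt_equivIco 2 a h)

/-- The embedding `t ↦ exp t` of the line in the half line. -/
noncomputable def emb (t : ℝ) : EuclideanHalfSpace 1 :=
  ⟨WithLp.toLp 2 fun _ => Real.exp t, (Real.exp_pos t).le⟩

/-- The inverse of `emb`. -/
noncomputable def lg (w : EuclideanHalfSpace 1) : ℝ := Real.log (w.1 0)

lemma lg_emb (t : ℝ) : lg (emb t) = t := Real.log_exp t

lemma emb_lg {w : EuclideanHalfSpace 1} (h : 0 < w.1 0) : emb (lg w) = w := by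
  apply Subtype.ext
  apply PiLp.ext
  intro i
  fin_cases i
  simpa [emb, lg] using Real.exp_log h

lemma continuous_emb : Continuous emb := by
  refine Continuous.subtype_mk ?_ _
  exact (PiLp.continuous_toLp 2 _).comp (by fun_prop)

lemma continuousAt_lg {w : EuclideanHalfSpace 1} (h : 0 < w.1 0) : ContinuousAt lg w := by
  refine ContinuousAt.log ?_ h.ne'
  exact ((EuclideanSpace.proj (0 : Fin 1)).continuous.comp continuous_subtype_val).continuousAt

/-- The chart of the circle whose source is the complement of `a`. -/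
noncomputable def ch (a : ℝ) : OpenPartialHomeomorph T (EuclideanHalfSpace 1) where
  toFun z := emb (sec a z)
  invFun w := q (lg w)
  source := {z | z ≠ q a}
  target := {w | 0 < w.1 0 ∧ lg w ∈ Ioo a (a + 2)}
  map_source' := by
    intro z hz
    refine ⟨Real.exp_pos _, ?_⟩
    rw [lg_emb]
    have h := sec_mem a z
    refine ⟨lt_of_le_of_ne h.1 ?_, h.2⟩
    intro h'
    apply hz
    rw [← q_sec a z, ← h']
  map_target' := by
    rintro w ⟨h1, h2⟩ h3
    have h3' : q (lg w) = q a := h3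
    have h4 : sec a (q (lg w)) = sec a (q a) := by rw [h3']
    rw [sec_q (Ioo_subset_Ico_self h2), sec_q ⟨le_rfl, by linarith⟩] at h4
    exact h2.1.ne' h4
  left_inv' := by
    intro z _
    rw [lg_emb, q_sec]
  right_inv' := by
    rintro w ⟨h1, h2⟩
    show emb (sec a (q (lg w))) = w
    rw [sec_q (Ioo_subset_Ico_self h2), emb_lg h1]
  open_source := isOpen_ne
  open_target := by
    rw [isOpen_iff_mem_nhds]
    rintro w ⟨h1, h2⟩
    have hc : Continuous fun w : EuclideanHalfSpace 1 => w.1 0 :=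
      (EuclideanSpace.proj (0 : Fin 1)).continuous.comp continuous_subtype_val
    filter_upwards [hc.continuousAt.preimage_mem_nhds (isOpen_Ioi.mem_nhds h1),
      (continuousAt_lg h1).preimage_mem_nhds (isOpen_Ioo.mem_nhds h2)] with v hv1 hv2
    exact ⟨hv1, hv2⟩
  continuousOn_toFun := fun z hz =>
    (continuous_emb.continuousAt.comp (continuousAt_sec hz)).continuousWithinAt
  continuousOn_invFun := fun w hw =>
    (continuous_q.continuousAt.comp (continuousAt_lg hw.1)).continuousWithinAt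

lemma ch_source (a : ℝ) : (ch a).source = {z | z ≠ q a} := rfl

lemma q_ne {s t : ℝ} (h1 : s ≠ t) (h2 : |s - t| < 2) : q s ≠ q t := by
  intro h
  obtain ⟨n, hn⟩ := q_eq_iff.1 h
  have h3 : |(2 : ℝ) * n| < 2 := by
    rw [hn] at h2
    simpa using h2
  rw [abs_mul, abs_two] at h3
  have h4 : |(n : ℝ)| < 1 := by linarith
  have h5 : |n| < 1 := by exact_mod_cast h4
  rw [Int.abs_lt_one_iff] at h5
  apply h1
  rw [hn, h5]
  simp

noncomputable instance chartedSpace : ChartedSpace (EuclideanHalfSpace 1) T where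
  atlas := range ch
  chartAt z := ch (sec 0 z - 1)
  mem_chart_source z := by
    rw [ch_source]
    have : q (sec 0 z) ≠ q (sec 0 z - 1) := q_ne (by intro h; linarith) (by simp)
    rwa [q_sec] at this
  chart_mem_atlas _ := ⟨_, rfl⟩

lemma mem_atlas (a : ℝ) : ch a ∈ atlas (EuclideanHalfSpace 1) T := ⟨a, rfl⟩

/-- Locally a section differs from the coordinate of the line by a constant period. -/
lemma sec_eventually {a t : ℝ} (h : q t ≠ q a) :
    ∃ c : ℝ, ∀ᶠ s in 𝓝 t, sec a (q s) = s + c := by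
  refine ⟨sec a (q t) - t, ?_⟩
  have h1 : q (sec a (q t)) = q t := q_sec _ _
  obtain ⟨n, hn⟩ := q_eq_iff.1 h1
  have h2 := sec_mem a (q t)
  have h3 : sec a (q t) ∈ Ioo a (a + 2) := by
    refine ⟨lt_of_le_of_ne h2.1 ?_, h2.2⟩
    intro h'
    rw [← h'] at h1
    exact h h1.symm
  have h4 : ContinuousAt (fun s : ℝ => s + (sec a (q t) - t)) t := by fun_prop
  have h5 := h4.preimage_mem_nhds (isOpen_Ioo.mem_nhds (by simpa using h3))
  filter_upwards [h5] with s hs
  have h6 : q s = q (s + (sec a (q t) - t)) := q_eq_iff.2 ⟨-n, by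
    push_cast
    linarith⟩
  rw [h6]
  exact sec_q (Ioo_subset_Ico_self hs)

lemma contDiff_proj {n : WithTop ℕ∞} :
    ContDiff ℝ n (fun v : EuclideanSpace ℝ (Fin 1) => v 0) :=
  contDiff_euclidean.1 contDiff_id 0

lemma lg_symm {v : EuclideanSpace ℝ (Fin 1)} (h : 0 < v 0) :
    lg ((𝓡∂ 1).symm v) = Real.log (v 0) := by
  rw [modelWithCornersEuclideanHalfSpace_symm_apply]
  simp only [lg]
  congr 1
  simpa using h.le

noncomputable instance isManifold : IsManifold (𝓡∂ 1) ((⊤ : ℕ∞) : WithTop ℕ∞) T := by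
  apply isManifold_of_contDiffOn
  rintro _ _ ⟨a, rfl⟩ ⟨b, rfl⟩
  rintro v ⟨hv1, w, rfl⟩
  have hw : (𝓡∂ 1).symm ((𝓡∂ 1) w) = w := (𝓡∂ 1).left_inv w
  rw [mem_preimage, hw] at hv1
  obtain ⟨⟨hw1, hw2⟩, hw3⟩ := hv1
  have hw3' : q (lg w) ≠ q b := hw3
  obtain ⟨c, hc⟩ := sec_eventually hw3'
  have hpos : 0 < ((𝓡∂ 1) w) 0 := hw1
  have hcont : ContinuousAt (fun v : EuclideanSpace ℝ (Fin 1) => Real.log (v 0)) ((𝓡∂ 1) w) :=
    ContinuousAt.log (EuclideanSpace.proj (0 : Fin 1)).continuous.continuousAt hpos.ne'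
  have key : ContDiffWithinAt ℝ ((⊤ : ℕ∞) : WithTop ℕ∞)
      (fun v : EuclideanSpace ℝ (Fin 1) => (WithLp.toLp 2 fun _ => Real.exp (Real.log (v 0) + c) :
        EuclideanSpace ℝ (Fin 1)))
      ((𝓡∂ 1).symm ⁻¹' ((ch a).symm ≫ₕ ch b).source ∩ range (𝓡∂ 1)) ((𝓡∂ 1) w) := by
    apply ContDiffAt.contDiffWithinAt
    rw [contDiffAt_euclidean]
    intro i
    apply ContDiffAt.exp
    apply ContDiffAt.add _ contDiffAt_const
    exact contDiff_proj.contDiffAt.log hpos.ne'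
  refine key.congr_of_eventuallyEq ?_ ?_
  · have h1 := hcont.eventually hc
    have h2 : ∀ᶠ v in 𝓝 ((𝓡∂ 1) w), 0 < v 0 :=
      (EuclideanSpace.proj (0 : Fin 1)).continuous.continuousAt.eventually
        (isOpen_Ioi.mem_nhds hpos)
    filter_upwards [nhdsWithin_le_nhds h1, nhdsWithin_le_nhds h2] with v hv hv2
    have h3 : lg ((𝓡∂ 1).symm v) = Real.log (v 0) := lg_symm hv2
    show (emb (sec b (q (lg ((𝓡∂ 1).symm v))))).1 = _
    rw [h3, hv]
    rfl
  · have h3 : lg ((𝓡∂ 1).symm ((𝓡∂ 1) w)) = Real.log (((𝓡∂ 1) w) 0) := lg_symm hpos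
    show (emb (sec b (q (lg ((𝓡∂ 1).symm ((𝓡∂ 1) w)))))).1 = _
    have h4 : sec b (q (Real.log (((𝓡∂ 1) w) 0))) = Real.log (((𝓡∂ 1) w) 0) + c := hc.self_of_nhds
    rw [h3, h4]
    rfl

/-! ### Smoothness of the covering map and of its sections -/

lemma contMDiff_emb {n : WithTop ℕ∞} : ContMDiff 𝓘(ℝ, ℝ) (𝓡∂ 1) n emb := by
  rw [contMDiff_iff]
  refine ⟨continuous_emb, fun x y => ?_⟩
  apply ContDiff.contDiffOn
  rw [contDiff_euclidean]
  intro i
  exact Real.contDiff_exp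

lemma contMDiffAt_lg {n : WithTop ℕ∞} {w : EuclideanHalfSpace 1} (hw : 0 < w.1 0) :
    ContMDiffAt (𝓡∂ 1) 𝓘(ℝ, ℝ) n lg w := by
  rw [contMDiffAt_iff]
  refine ⟨continuousAt_lg hw, ?_⟩
  have hpos : 0 < ((𝓡∂ 1) w) 0 := hw
  have key : ContDiffWithinAt ℝ n (fun v : EuclideanSpace ℝ (Fin 1) => Real.log (v 0))
      (range (𝓡∂ 1)) ((𝓡∂ 1) w) :=
    (contDiff_proj.contDiffAt.log hpos.ne').contDiffWithinAt
  refine key.congr_of_eventuallyEq ?_ ?_
  · have h2 : ∀ᶠ v in 𝓝 ((𝓡∂ 1) w), 0 < v 0 :=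
      (EuclideanSpace.proj (0 : Fin 1)).continuous.continuousAt.eventually
        (isOpen_Ioi.mem_nhds hpos)
    filter_upwards [nhdsWithin_le_nhds h2] with v hv
    exact lg_symm hv
  · exact lg_symm hpos

lemma contMDiff_q : ContMDiff 𝓘(ℝ, ℝ) (𝓡∂ 1) ((⊤ : ℕ∞) : WithTop ℕ∞) q := by
  intro t
  have h1 : q = (ch (t - 1)).symm ∘ emb := by
    ext s
    show q s = q (lg (emb s))
    rw [lg_emb]
  have h2 : emb t ∈ (ch (t - 1)).target := by
    refine ⟨Real.exp_pos _, ?_⟩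
    rw [lg_emb]
    constructor <;> linarith
  have h3 : ContMDiffAt (𝓡∂ 1) (𝓡∂ 1) ((⊤ : ℕ∞) : WithTop ℕ∞) (ch (t - 1)).symm (emb t) :=
    (contMDiffOn_symm_of_mem_maximalAtlas
      (IsManifold.subset_maximalAtlas (mem_atlas (t - 1)))).contMDiffAt
      ((ch (t - 1)).open_target.mem_nhds h2)
  rw [h1]
  exact h3.comp t contMDiff_emb.contMDiffAt

lemma contMDiffAt_sec {a : ℝ} {z : T} (hz : z ≠ q a) :
    ContMDiffAt (𝓡∂ 1) 𝓘(ℝ, ℝ) ((⊤ : ℕ∞) : WithTop ℕ∞) (sec a) z := by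
  have h1 : sec a = lg ∘ ch a := by
    ext z
    show sec a z = lg (emb (sec a z))
    rw [lg_emb]
  have h2 : z ∈ (ch a).source := hz
  have h3 : ContMDiffAt (𝓡∂ 1) (𝓡∂ 1) ((⊤ : ℕ∞) : WithTop ℕ∞) (ch a) z :=
    (contMDiffOn_of_mem_maximalAtlas
      (IsManifold.subset_maximalAtlas (mem_atlas a))).contMDiffAt
      ((ch a).open_source.mem_nhds h2)
  rw [h1]
  exact (contMDiffAt_lg (Real.exp_pos _)).comp z h3

/-- A map of the circle which is locally induced by a `C^n` function on the line is `C^n`. -/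
lemma contMDiffAt_of_lift {n : WithTop ℕ∞} (hn : n ≤ ((⊤ : ℕ∞) : WithTop ℕ∞)) {Φ : T → T}
    {F : ℝ → ℝ} {t : ℝ} (hF : ContDiffAt ℝ n F t) (h : ∀ᶠ s in 𝓝 t, Φ (q s) = q (F s)) :
    ContMDiffAt (𝓡∂ 1) (𝓡∂ 1) n Φ (q t) := by
  have hne : q t ≠ q (t - 1) := q_ne (by intro h; linarith) (by simp)
  have ht : sec (t - 1) (q t) = t := sec_q ⟨by linarith, by linarith⟩
  have h1 : ContMDiffAt (𝓡∂ 1) (𝓡∂ 1) n (q ∘ F ∘ sec (t - 1)) (q t) := by
    refine ContMDiffAt.comp (q t) (contMDiff_q.contMDiffAt.of_le hn) ?_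
    refine ContMDiffAt.comp (q t) ?_ ((contMDiffAt_sec hne).of_le hn)
    rw [ht]
    exact contMDiffAt_iff_contDiffAt.2 hF
  refine h1.congr_of_eventuallyEq ?_
  have h2 : Tendsto (sec (t - 1)) (𝓝 (q t)) (𝓝 t) := by
    have := continuousAt_sec hne
    rwa [ContinuousAt, ht] at this
  filter_upwards [h2.eventually h] with z hz
  rw [q_sec] at hz
  exact hz

end Q25.Circ
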