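import Mathlib
import Pool.Agent.Q25.Circ.Basic

/-!
# Doubling `C¹` diffeomorphisms of the interval

The double of a `C¹` diffeomorphism of `[0, 1]` is a `C¹` diffeomorphism of the circle `ℝ / 2ℤ`.
-/

open Set Filter Topology Manifold

namespace Q25.Circ

/-- The unit interval. -/
abbrev J : Type := Icc (0 : ℝ) 1

/-- The extension of a self-map of the interval to the line. -/
noncomputable def fe (f : J → J) (x : ℝ) : ℝ := (f (projIcc 0 1 zero_le_one x)).1

lemma fe_mem (f : J → J) (x : ℝ) : fe f x ∈ Icc (0 : ℝ) 1 := (f _).2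

lemma fe_comp (f g : J → J) (x : ℝ) : fe (f ∘ g) x = fe f (fe g x) := by
  simp [fe]

lemma fe_id {x : ℝ} (h : x ∈ Icc (0 : ℝ) 1) : fe id x = x := by
  simp [fe, projIcc_of_mem zero_le_one h]

lemma fe_coe (f : J → J) (x : J) : fe f x = f x := by
  simp [fe]

lemma fe_contDiffOn {n : WithTop ℕ∞} {f : J → J} (hf : ContMDiff (𝓡∂ 1) (𝓡∂ 1) n f) :
    ContDiffOn ℝ n (fe f) (Icc 0 1) := by
  have h1 : ContMDiffOn 𝓘(ℝ) (𝓡∂ 1) n (Set.projIcc (0 : ℝ) 1 zero_le_one) (Icc 0 1) :=
    contMDiffOn_projIcc (h := ⟨zero_lt_one⟩)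
  have h2 : ContMDiff (𝓡∂ 1) 𝓘(ℝ) n (fun z : J => (z : ℝ)) := contMDiff_subtypeVal_Icc
  have h3 := (h2.comp hf).comp_contMDiffOn h1
  exact contMDiffOn_iff_contDiffOn.1 h3

/-- A self-map of the interval preserves the set of end points. -/
def Ends (f : J → J) : Prop := (fe f 0 = 0 ∧ fe f 1 = 1) ∨ (fe f 0 = 1 ∧ fe f 1 = 0)

/-- The double. -/
noncomputable def D (f : J → J) (z : T) : T :=
  if 0 ≤ sec (-1) z then q (fe f (sec (-1) z)) else q (-fe f (-sec (-1) z))

lemma q_neg_one : q (-1) = q 1 := q_eq_iff.2 ⟨1, by norm_num⟩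

lemma q_neg_zero : q (-0) = q 0 := by rw [neg_zero]

lemma D_pos {f : J → J} (hf : Ends f) {x : ℝ} (hx : x ∈ Icc (0 : ℝ) 1) :
    D f (q x) = q (fe f x) := by
  rcases eq_or_lt_of_le hx.2 with h | h
  · rw [h, ← q_neg_one, D, sec_q (by norm_num), if_neg (by norm_num)]
    rcases hf with ⟨_, h1⟩ | ⟨_, h1⟩
    · simp only [neg_neg, h1, q_neg_one]
    · simp only [neg_neg, h1, q_neg_zero]
  · rw [D, sec_q ⟨by linarith [hx.1], by linarith⟩, if_pos hx.1]

lemma D_neg {f : J → J} (hf : Ends f) {x : ℝ} (hx : x ∈ Icc (0 : ℝ) 1) :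
    D f (q (-x)) = q (-fe f x) := by
  rcases eq_or_lt_of_le hx.1 with h | h
  · rw [← h, q_neg_zero, D_pos hf (by norm_num)]
    rcases hf with ⟨h1, _⟩ | ⟨h1, _⟩
    · simp only [h1, q_neg_zero]
    · simp only [h1, q_neg_one]
  · rw [D, sec_q ⟨by linarith [hx.2], by linarith⟩, if_neg (by linarith), neg_neg]

lemma exists_rep (z : T) : ∃ x ∈ Icc (0 : ℝ) 1, z = q x ∨ z = q (-x) := by
  have h := sec_mem (-1) z
  rcases le_or_gt 0 (sec (-1) z) with h1 | h1
  · exact ⟨_, ⟨h1, by linarith [h.2]⟩, Or.inl (q_sec _ _).symm⟩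
  · exact ⟨-sec (-1) z, ⟨by linarith, by linarith [h.1]⟩, Or.inr (by rw [neg_neg, q_sec])⟩

lemma D_comp {f g : J → J} (hf : Ends f) (hg : Ends g) (hfg : Ends (f ∘ g)) :
    D (f ∘ g) = D f ∘ D g := by
  ext z
  obtain ⟨x, hx, rfl | rfl⟩ := exists_rep z
  · rw [Function.comp_apply, D_pos hfg hx, D_pos hg hx, D_pos hf (fe_mem _ _), fe_comp]
  · rw [Function.comp_apply, D_neg hfg hx, D_neg hg hx, D_neg hf (fe_mem _ _), fe_comp]

lemma ends_id : Ends id := Or.inl ⟨fe_id (by norm_num), fe_id (by norm_num)⟩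

lemma D_id : D id = id := by
  ext z
  obtain ⟨x, hx, rfl | rfl⟩ := exists_rep z
  · rw [D_pos ends_id hx, fe_id hx, id]
  · rw [D_neg ends_id hx, fe_id hx, id]

lemma Ends.comp {f g : J → J} (hf : Ends f) (hg : Ends g) : Ends (f ∘ g) := by
  unfold Ends
  rw [fe_comp, fe_comp]
  rcases hg with ⟨h1, h2⟩ | ⟨h1, h2⟩ <;> rw [h1, h2] <;>
  rcases hf with ⟨h3, h4⟩ | ⟨h3, h4⟩ <;> simp [h3, h4]

lemma D_injective {f g : J → J} (hf : Ends f) (hg : Ends g) (h : D f = D g) : f = g := by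
  ext x
  have h1 := congrFun h (q x)
  rw [D_pos hf x.2, D_pos hg x.2, fe_coe, fe_coe] at h1
  by_contra hne
  refine q_ne hne ?_ h1
  have h2 := (f x).2
  have h3 := (g x).2
  rw [abs_lt]
  constructor <;> linarith [h2.1, h2.2, h3.1, h3.2]

/-- The odd extension. -/
noncomputable def odd (h : ℝ → ℝ) (x : ℝ) : ℝ := if 0 ≤ x then h x else -h (-x)

lemma odd_contDiffAt {h : ℝ → ℝ} (hh : ContDiffOn ℝ 1 h (Icc 0 1)) (h0 : h 0 = 0) {x : ℝ}
    (hx : x ∈ Ioo (-1 : ℝ) 1) : ContDiffAt ℝ 1 (odd h) x := by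
  have hu : UniqueDiffOn ℝ (Icc (0 : ℝ) 1) := uniqueDiffOn_Icc zero_lt_one
  set d : ℝ → ℝ := fun x => derivWithin h (Icc 0 1) |x| with hd
  have hdc : ContinuousOn (derivWithin h (Icc 0 1)) (Icc 0 1) :=
    hh.continuousOn_derivWithin hu le_rfl
  have hder : ∀ y ∈ Icc (0 : ℝ) 1, HasDerivWithinAt h (derivWithin h (Icc 0 1) y) (Icc 0 1) y :=
    fun y hy => ((hh.differentiableOn one_ne_zero) y hy).hasDerivWithinAt
  have hcont : ContinuousOn d (Ioo (-1) 1) := by
    refine hdc.comp continuous_abs.continuousOn ?_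
    intro y hy
    exact ⟨abs_nonneg y, (abs_lt.2 hy).le⟩
  have hderiv : ∀ y ∈ Ioo (-1 : ℝ) 1, HasDerivAt (odd h) (d y) y := by
    intro y hy
    rcases lt_trichotomy y 0 with hy0 | hy0 | hy0
    · have h1 : HasDerivAt h (derivWithin h (Icc 0 1) (-y)) (-y) :=
        (hder (-y) ⟨by linarith, by linarith [hy.1]⟩).hasDerivAt
          (Icc_mem_nhds (by linarith) (by linarith [hy.1]))
      have h2 : HasDerivAt (fun y => -h (-y)) (d y) y := by
        have h3 := (h1.scomp y (hasDerivAt_neg y)).neg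
        simp only [neg_smul, one_smul, neg_neg] at h3
        rw [hd]
        simp only
        rw [abs_of_neg hy0]
        exact h3
      refine h2.congr_of_eventuallyEq ?_
      filter_upwards [Iio_mem_nhds hy0] with z hz
      have : ¬ (0 ≤ z) := not_le.2 hz
      simp [odd, this]
    · subst hy0
      have h1 := hder 0 (by norm_num)
      have hd0 : d 0 = derivWithin h (Icc 0 1) 0 := by simp [hd]
      rw [hd0]
      have h2 : HasDerivWithinAt (odd h) (derivWithin h (Icc 0 1) 0) (Icc 0 1) 0 := by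
        refine h1.congr (fun z hz => by simp [odd, hz.1]) (by simp [odd])
      have h3 : HasDerivWithinAt (odd h) (derivWithin h (Icc 0 1) 0) (Icc (-1) 0) 0 := by
        have h4 : HasDerivWithinAt (fun y => -h (-y)) (derivWithin h (Icc 0 1) 0)
            (Icc (-1) 0) 0 := by
          have h5 : HasDerivWithinAt h (derivWithin h (Icc 0 1) 0) (Icc 0 1) (-0) := by
            rw [neg_zero]; exact h1
          have h6 := (h5.scomp (0 : ℝ) (hasDerivWithinAt_neg (0 : ℝ) (Icc (-1) 0)) (by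
            intro z hz
            exact ⟨by linarith [hz.2], by linarith [hz.1]⟩)).neg
          simp only [neg_smul, one_smul, neg_neg] at h6
          exact h6
        refine h4.congr (fun z hz => ?_) (by simp [odd, h0])
        rcases eq_or_lt_of_le hz.2 with h' | h'
        · simp [odd, h', h0]
        · have : ¬ (0 ≤ z) := not_le.2 h'
          simp [odd, this]
      have h7 := h3.union h2
      rw [Icc_union_Icc_eq_Icc (by norm_num) (by norm_num)] at h7
      exact h7.hasDerivAt (Icc_mem_nhds (by norm_num) (by norm_num))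
    · have h1 : HasDerivAt h (derivWithin h (Icc 0 1) y) y :=
        (hder y ⟨hy0.le, hy.2.le⟩).hasDerivAt (Icc_mem_nhds hy0 hy.2)
      have h2 : d y = derivWithin h (Icc 0 1) y := by simp [hd, abs_of_pos hy0]
      rw [h2]
      refine h1.congr_of_eventuallyEq ?_
      filter_upwards [Ioi_mem_nhds hy0] with z hz
      have : 0 ≤ z := le_of_lt hz
      simp [odd, this]
  have hon : ContDiffOn ℝ 1 (odd h) (Ioo (-1) 1) := by
    rw [show (1 : WithTop ℕ∞) = 0 + 1 by simp, contDiffOn_succ_iff_deriv_of_isOpen isOpen_Ioo]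
    refine ⟨fun y hy => (hderiv y hy).differentiableAt.differentiableWithinAt, by simp, ?_⟩
    rw [contDiffOn_zero]
    exact hcont.congr fun y hy => (hderiv y hy).deriv
  exact hon.contDiffAt (Ioo_mem_nhds hx.1 hx.2)

/-- The reflection of the interval. -/
noncomputable def refl (x : J) : J := ⟨1 - x.1, by constructor <;> linarith [x.2.1, x.2.2]⟩

lemma refl_refl : refl ∘ refl = id := by
  ext x
  simp [refl]

lemma fe_refl {x : ℝ} (h : x ∈ Icc (0 : ℝ) 1) : fe refl x = 1 - x := by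
  simp [fe, projIcc_of_mem zero_le_one h, refl]

lemma ends_refl : Ends refl :=
  Or.inr ⟨by rw [fe_refl (by norm_num)]; norm_num, by rw [fe_refl (by norm_num)]; norm_num⟩

lemma contMDiff_refl : ContMDiff (𝓡∂ 1) (𝓡∂ 1) 1 refl := by
  rw [contMDiff_iff_comp_subtypeVal_Icc]
  have h1 : ContMDiff (𝓡∂ 1) 𝓘(ℝ) 1 (fun z : J => (z : ℝ)) := contMDiff_subtypeVal_Icc
  refine ⟨by unfold refl; fun_prop, ?_⟩
  have h2 : ContDiff ℝ 1 (fun x : ℝ => 1 - x) := by fun_prop
  exact h2.contMDiff.comp h1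

lemma D_refl (z : T) : D refl z = q 1 - z := by
  obtain ⟨x, hx, rfl | rfl⟩ := exists_rep z
  · rw [D_pos ends_refl hx, fe_refl hx, q_sub]
  · rw [D_neg ends_refl hx, fe_refl hx, ← q_sub]
    exact q_eq_iff.2 ⟨1, by push_cast; ring⟩

lemma contMDiff_D_refl : ContMDiff (𝓡∂ 1) (𝓡∂ 1) 1 (D refl) := by
  intro z
  rw [← q_sec 0 z]
  refine contMDiffAt_of_lift (by exact_mod_cast le_top) (F := fun t => 1 - t) (by fun_prop) ?_
  exact Eventually.of_forall fun s => D_refl _

lemma contMDiffAt_D_of_mem {f : J → J} (hf : ContMDiff (𝓡∂ 1) (𝓡∂ 1) 1 f)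
    (h0 : fe f 0 = 0) (h1 : fe f 1 = 1) {x : ℝ} (hx : x ∈ Ioo (-1 : ℝ) 1) :
    ContMDiffAt (𝓡∂ 1) (𝓡∂ 1) 1 (D f) (q x) := by
  have he : Ends f := Or.inl ⟨h0, h1⟩
  refine contMDiffAt_of_lift (by exact_mod_cast le_top)
    (odd_contDiffAt (fe_contDiffOn hf) h0 hx) ?_
  filter_upwards [Ioo_mem_nhds hx.1 hx.2] with s hs
  unfold odd
  split_ifs with h
  · exact D_pos he ⟨h, hs.2.le⟩
  · have := D_neg he (x := -s) ⟨by linarith, by linarith [hs.1]⟩
    rwa [neg_neg] at this

lemma contMDiff_D_of_fix {f : J → J} (hf : ContMDiff (𝓡∂ 1) (𝓡∂ 1) 1 f)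
    (h0 : fe f 0 = 0) (h1 : fe f 1 = 1) : ContMDiff (𝓡∂ 1) (𝓡∂ 1) 1 (D f) := by
  intro z
  have hz := sec_mem (-1) z
  rcases eq_or_lt_of_le hz.1 with h | h
  · -- the point `q 1`
    have hz1 : z = q 1 := by rw [← q_sec (-1) z, ← h, q_neg_one]
    set g : J → J := refl ∘ f ∘ refl with hg
    have hgC : ContMDiff (𝓡∂ 1) (𝓡∂ 1) 1 g := contMDiff_refl.comp (hf.comp contMDiff_refl)
    have hgE0 : fe g 0 = 0 := by
      rw [hg, fe_comp, fe_comp, fe_refl (x := 0) (by norm_num), sub_zero, h1,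
        fe_refl (by norm_num), sub_self]
    have hgE1 : fe g 1 = 1 := by
      rw [hg, fe_comp, fe_comp, fe_refl (x := 1) (by norm_num), sub_self, h0,
        fe_refl (by norm_num), sub_zero]
    have hge : Ends g := Or.inl ⟨hgE0, hgE1⟩
    have hfe : Ends f := Or.inl ⟨h0, h1⟩
    have hf2 : f = refl ∘ (g ∘ refl) := by
      ext x
      have e1 : refl (refl x) = x := congrFun refl_refl x
      have e2 : refl (refl (f x)) = f x := congrFun refl_refl (f x)
      simp only [hg, Function.comp_apply, e1, e2]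
    have hDf : D f = D refl ∘ (D g ∘ D refl) := by
      conv_lhs => rw [hf2]
      rw [D_comp ends_refl (hge.comp ends_refl) (ends_refl.comp (hge.comp ends_refl)),
        D_comp hge ends_refl (hge.comp ends_refl)]
    rw [hDf]
    refine ContMDiffAt.comp z contMDiff_D_refl.contMDiffAt ?_
    refine ContMDiffAt.comp z ?_ contMDiff_D_refl.contMDiffAt
    rw [hz1, D_refl, sub_self]
    exact contMDiffAt_D_of_mem hgC hgE0 hgE1 (x := 0) (by norm_num)
  · rw [← q_sec (-1) z]
    exact contMDiffAt_D_of_mem hf h0 h1 ⟨h, by linarith [hz.2]⟩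

lemma contMDiff_D {f : J → J} (hf : ContMDiff (𝓡∂ 1) (𝓡∂ 1) 1 f) (he : Ends f) :
    ContMDiff (𝓡∂ 1) (𝓡∂ 1) 1 (D f) := by
  rcases he with ⟨h0, h1⟩ | ⟨h0, h1⟩
  · exact contMDiff_D_of_fix hf h0 h1
  · have he : Ends f := Or.inr ⟨h0, h1⟩
    have hf2 : f = refl ∘ (refl ∘ f) := by
      ext x
      have e2 : refl (refl (f x)) = f x := congrFun refl_refl (f x)
      simp only [Function.comp_apply, e2]
    have hDf : D f = D refl ∘ D (refl ∘ f) := by
      conv_lhs => rw [hf2]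
      exact D_comp ends_refl (ends_refl.comp he) (ends_refl.comp (ends_refl.comp he))
    rw [hDf]
    refine contMDiff_D_refl.comp (contMDiff_D_of_fix (contMDiff_refl.comp hf) ?_ ?_)
    · rw [fe_comp, h0, fe_refl (by norm_num), sub_self]
    · rw [fe_comp, h1, fe_refl (by norm_num), sub_zero]

/-- A homeomorphism of the interval preserves the set of end points. -/
lemma ends_of_continuous {f : J → J} (hc : Continuous f) (hb : Function.Bijective f) :
    Ends f := by
  have h := hc.strictMono_of_inj hb.injective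
  have e0 : fe f 0 = (f ⊥ : J).1 := by
    have : fe f ((⊥ : J) : ℝ) = (f ⊥ : J).1 := fe_coe f ⊥
    exact this
  have e1 : fe f 1 = (f ⊤ : J).1 := by
    have : fe f ((⊤ : J) : ℝ) = (f ⊤ : J).1 := fe_coe f ⊤
    exact this
  unfold Ends
  rw [e0, e1]
  rcases h with h | h
  · left
    obtain ⟨a, ha⟩ := hb.surjective ⊥
    obtain ⟨b, hb⟩ := hb.surjective ⊤
    have h1 : f ⊥ = ⊥ := le_antisymm ((h.monotone bot_le).trans_eq ha) bot_le
    have h2 : f ⊤ = ⊤ := le_antisymm le_top (hb.symm.trans_le (h.monotone le_top))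
    rw [h1, h2]
    exact ⟨rfl, rfl⟩
  · right
    obtain ⟨a, ha⟩ := hb.surjective ⊥
    obtain ⟨b, hb⟩ := hb.surjective ⊤
    have h1 : f ⊥ = ⊤ := le_antisymm le_top (hb.symm.trans_le (h.antitone bot_le))
    have h2 : f ⊤ = ⊥ := le_antisymm ((h.antitone le_top).trans_eq ha) bot_le
    rw [h1, h2]
    exact ⟨rfl, rfl⟩

/-- A faithful action by `C¹` maps on the interval yields one on the circle. -/
theorem exists_action {G : Type} [Group G] (ρ : G →* Equiv.Perm J) (hρ : Function.Injective ρ)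
    (hC : ∀ g, ContMDiff (𝓡∂ 1) (𝓡∂ 1) 1 (ρ g)) :
    ∃ σ : G →* Equiv.Perm T, Function.Injective σ ∧
      ∀ g, ContMDiff (𝓡∂ 1) (𝓡∂ 1) 1 (σ g) := by
  have he : ∀ g, Ends (ρ g) := fun g => ends_of_continuous (hC g).continuous (ρ g).bijective
  let σ₀ : G →* Function.End T :=
    { toFun := fun g => D (ρ g)
      map_one' := by
        rw [map_one]
        exact D_id
      map_mul' := fun g h => by
        have h1 : (ρ (g * h) : J → J) = ρ g ∘ ρ h := by
          rw [map_mul]; rfl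
        show D (ρ (g * h)) = D (ρ g) ∘ D (ρ h)
        rw [h1]
        refine D_comp (he g) (he h) ?_
        rw [← h1]
        exact he _ }
  refine ⟨σ₀.toHomPerm, ?_, ?_⟩
  · intro g h hgh
    have h1 : D (ρ g) = D (ρ h) := congrArg (fun e : Equiv.Perm T => (e : T → T)) hgh
    exact hρ (Equiv.coe_fn_injective (D_injective (he g) (he h) h1))
  · intro g
    exact contMDiff_D (hC g) (he g)

/-- The interval is not homeomorphic to the circle. -/
theorem not_homeo (φ : J ≃ₜ T) : False := by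
  set m : J := ⟨1 / 2, by norm_num, by norm_num⟩ with hm
  obtain ⟨a, ha⟩ : ∃ a, q a = φ m := ⟨_, q_sec 0 _⟩
  have h1 : IsPreconnected ({φ m}ᶜ : Set T) := by
    have h2 : ({φ m}ᶜ : Set T) = q '' Ioo a (a + 2) := by
      ext z
      constructor
      · intro hz
        refine ⟨sec a z, ⟨lt_of_le_of_ne (sec_mem a z).1 ?_, (sec_mem a z).2⟩, q_sec _ _⟩
        intro h
        apply hz
        rw [← q_sec a z, ← h]
        exact ha
      · rintro ⟨t, ht, rfl⟩ h
        have h' : q t = q a := by rw [ha]; exact h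
        exact q_ne ht.1.ne' (by rw [abs_lt]; constructor <;> linarith [ht.1, ht.2]) h'
    rw [h2]
    exact isPreconnected_Ioo.image _ continuous_q.continuousOn
  have h3 : IsPreconnected ({m}ᶜ : Set J) := by
    have h4 : ({m}ᶜ : Set J) = φ.symm '' ({φ m}ᶜ) := by
      rw [Set.image_compl_eq φ.symm.bijective]
      simp
    rw [h4]
    exact h1.image _ φ.symm.continuous.continuousOn
  have h5 := (h3.image _ continuous_subtype_val.continuousOn).ordConnected
  have h6 : (1 / 2 : ℝ) ∈ Subtype.val '' ({m}ᶜ : Set J) := by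
    refine h5.out (x := 0) (y := 1) ⟨⟨0, by norm_num⟩, ?_, rfl⟩ ⟨⟨1, by norm_num⟩, ?_, rfl⟩
      (by norm_num)
    · intro h
      have := congrArg Subtype.val h
      norm_num [hm] at this
    · intro h
      have := congrArg Subtype.val h
      norm_num [hm] at this
  obtain ⟨y, hy, hy2⟩ := h6
  apply hy
  exact Subtype.ext hy2

end Q25.Circ
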